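import Mathlib
import Pool.Agent.helper60.POS.Defs

set_option autoImplicit false

/-!
# Cardinal arithmetic and bookkeeping (module B of the positive half)
-/

open Cardinal Order

namespace Pool.Agent.helper60.POS

open Pool.Agent.helper60.FcU

theorem mk_finset_le' {α : Type} {μ : Cardinal.{0}} (hμ : ℵ₀ ≤ μ) (hα : #α ≤ μ) :
    #(Finset α) ≤ μ := by
  rcases finite_or_infinite α with h | h
  · exact (Cardinal.lt_aleph0_of_finite (Finset α)).le.trans hμ
  · rw [Cardinal.mk_finset_of_infinite]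
    exact hα

theorem Cnd.mk_le {ι Ω : Type} {μ : Cardinal.{0}} (hμ : ℵ₀ ≤ μ) (hι : #ι ≤ μ) (hΩ : #Ω ≤ μ) :
    #(Cnd ι Ω) ≤ μ := by
  classical
  have h1 : #(Finset Ω) ≤ μ := mk_finset_le' hμ hΩ
  have h2 : #(Finset ℕ × Finset Ω) ≤ μ := by
    rw [Cardinal.mk_prod, Cardinal.lift_id, Cardinal.lift_id]
    refine (mul_le_mul' (Cardinal.mk_le_aleph0.trans hμ) h1).trans ?_
    rw [Cardinal.mul_eq_self hμ]
  have h3 : #(ι × (Finset ℕ × Finset Ω)) ≤ μ := by
    rw [Cardinal.mk_prod, Cardinal.lift_id, Cardinal.lift_id]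
    refine (mul_le_mul' hι h2).trans ?_
    rw [Cardinal.mul_eq_self hμ]
  refine le_trans ?_ (mk_finset_le' hμ h3)
  refine Cardinal.mk_le_of_injective
    (f := fun d : Cnd ι Ω => d.fin.toFinset.image fun j => (j, (d.s j, d.F j))) ?_
  intro d e h
  have key : ∀ d e : Cnd ι Ω,
      (d.fin.toFinset.image fun j => (j, (d.s j, d.F j))) =
        (e.fin.toFinset.image fun j => (j, (e.s j, e.F j))) →
      ∀ j, (d.s j ≠ ∅ ∨ d.F j ≠ ∅) → e.s j = d.s j ∧ e.F j = d.F j := by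
    intro d e h j hj
    have hm : (j, (d.s j, d.F j)) ∈ (d.fin.toFinset.image fun j => (j, (d.s j, d.F j))) := by
      rw [Finset.mem_image]
      exact ⟨j, by rw [Set.Finite.mem_toFinset]; exact hj, rfl⟩
    rw [h, Finset.mem_image] at hm
    obtain ⟨k, -, hk⟩ := hm
    simp only [Prod.mk.injEq] at hk
    obtain ⟨rfl, hk1, hk2⟩ := hk
    exact ⟨hk1, hk2⟩
  have hall : ∀ j, d.s j = e.s j ∧ d.F j = e.F j := by
    intro j
    by_cases hj : d.s j ≠ ∅ ∨ d.F j ≠ ∅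
    · have := key d e h j hj
      exact ⟨this.1.symm, this.2.symm⟩
    · by_cases hj' : e.s j ≠ ∅ ∨ e.F j ≠ ∅
      · exact key e d h.symm j hj'
      · push Not at hj hj'
        rw [hj.1, hj.2, hj'.1, hj'.2]
        exact ⟨rfl, rfl⟩
  ext j : 2
  · exact (hall j).1
  · exact (hall j).2

theorem succ_pow_le (hGCH : ∀ μ : Cardinal.{0}, ℵ₀ ≤ μ → 2 ^ μ = succ μ) {ν : Cardinal.{0}}
    (hν : ν ≤ ℵ₁) : (succ (ℵ₁ : Cardinal.{0})) ^ ν ≤ succ ℵ₁ := by
  have h1 : (ℵ₀ : Cardinal.{0}) ≤ ℵ₁ := Cardinal.aleph0_le_aleph 1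
  calc (succ (ℵ₁ : Cardinal.{0})) ^ ν = ((2 : Cardinal.{0}) ^ (ℵ₁ : Cardinal.{0})) ^ ν := by
        rw [hGCH _ h1]
    _ = (2 : Cardinal.{0}) ^ ((ℵ₁ : Cardinal.{0}) * ν) := by rw [Cardinal.power_mul]
    _ ≤ (2 : Cardinal.{0}) ^ ((ℵ₁ : Cardinal.{0}) * ℵ₁) :=
        Cardinal.power_le_power_left two_ne_zero (mul_le_mul' le_rfl hν)
    _ = (2 : Cardinal.{0}) ^ (ℵ₁ : Cardinal.{0}) := by rw [Cardinal.mul_eq_self h1]
    _ = succ ℵ₁ := hGCH _ h1

theorem Ctp.mk_le {A B : Type} (hGCH : ∀ μ : Cardinal.{0}, ℵ₀ ≤ μ → 2 ^ μ = succ μ)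
    (hA : #A = ℵ₁) (hB : #B = succ ℵ₁) : #(Ctp A B) ≤ succ ℵ₁ := by
  have h1 : (ℵ₀ : Cardinal.{0}) ≤ ℵ₁ := Cardinal.aleph0_le_aleph 1
  have h2 : (ℵ₀ : Cardinal.{0}) ≤ succ ℵ₁ := h1.trans (le_succ _)
  have h3 : #(Option B) ≤ succ ℵ₁ := by
    rw [Cardinal.mk_option, hB, Cardinal.add_one_eq h2]
  have h4 : #(A → Option B) ≤ succ ℵ₁ := by
    rw [← Cardinal.power_def, hA]
    exact (Cardinal.power_le_power_right h3).trans (succ_pow_le hGCH le_rfl)
  refine le_trans ?_ h4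
  refine Cardinal.mk_le_of_injective (f := fun p : Ctp A B => p.f) ?_
  rintro ⟨f, hf⟩ ⟨g, hg⟩ h
  simp only at h
  subst h
  rfl

theorem exists_book (hGCH : ∀ μ : Cardinal.{0}, ℵ₀ ≤ μ → 2 ^ μ = succ μ) :
    ∃ D : (succ (ℵ₁ : Cardinal.{0})).ord.ToType → (ℵ₁ : Cardinal.{0}).ord.ToType → ℕ →
      Set (Cnd (succ (ℵ₁ : Cardinal.{0})).ord.ToType (ℵ₁ : Cardinal.{0}).ord.ToType),
      Book D := by
  classical
  set ι := (succ (ℵ₁ : Cardinal.{0})).ord.ToType with hι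
  set Ω := (ℵ₁ : Cardinal.{0}).ord.ToType with hΩ
  have h1 : (ℵ₀ : Cardinal.{0}) ≤ ℵ₁ := Cardinal.aleph0_le_aleph 1
  have h2 : (ℵ₀ : Cardinal.{0}) ≤ succ ℵ₁ := h1.trans (le_succ _)
  have hcι : #ι = succ ℵ₁ := by rw [hι, Cardinal.mk_toType, Cardinal.card_ord]
  have hcΩ : #Ω = ℵ₁ := by rw [hΩ, Cardinal.mk_toType, Cardinal.card_ord]
  have hC : #(Cnd ι Ω) ≤ succ ℵ₁ :=
    Cnd.mk_le h2 hcι.le (hcΩ.le.trans (le_succ _))
  -- countable sets of conditions
  have hCS : #{S : Set (Cnd ι Ω) // S.Countable} ≤ succ ℵ₁ := by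
    have e1 : #{S : Set (Cnd ι Ω) // S.Countable} ≤ #(ℕ → Option (Cnd ι Ω)) := by
      refine Cardinal.mk_le_of_surjective
        (f := fun g : ℕ → Option (Cnd ι Ω) =>
          (⟨{x | ∃ n, g n = some x}, by
            have : {x | ∃ n, g n = some x} ⊆ (fun n => (g n).getD ⟨fun _ => ∅, fun _ => ∅, by
              simp⟩) '' Set.univ := by
              rintro x ⟨n, hn⟩
              exact ⟨n, trivial, by simp [hn]⟩
            exact (Set.countable_univ.image _).mono this⟩ :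
            {S : Set (Cnd ι Ω) // S.Countable})) ?_
      rintro ⟨S, hS⟩
      rcases S.eq_empty_or_nonempty with h | h
      · refine ⟨fun _ => none, ?_⟩
        ext x
        simp [h]
      · obtain ⟨f, hf⟩ := hS.exists_eq_range h
        refine ⟨fun n => some (f n), ?_⟩
        ext x
        simp [hf]
    refine e1.trans ?_
    rw [← Cardinal.power_def, Cardinal.mk_nat]
    refine (Cardinal.power_le_power_right ?_).trans (succ_pow_le hGCH h1)
    rw [Cardinal.mk_option]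
    refine (add_le_add hC le_rfl).trans ?_
    rw [Cardinal.add_one_eq h2]
  have hK : #(Ω → ℕ → {S : Set (Cnd ι Ω) // S.Countable}) ≤ #ι := by
    rw [← Cardinal.power_def, ← Cardinal.power_def, hcΩ, hcι, Cardinal.mk_nat]
    refine (Cardinal.power_le_power_right ((Cardinal.power_le_power_right hCS).trans
      (succ_pow_le hGCH h1))).trans (succ_pow_le hGCH le_rfl)
  -- a surjection
  obtain ⟨e⟩ : Nonempty ((Ω → ℕ → {S : Set (Cnd ι Ω) // S.Countable}) ↪ ι) := by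
    rwa [Cardinal.le_def] at hK
  obtain ⟨g⟩ : Nonempty (ι ≃ ι × ι) := by
    rw [← Cardinal.eq, Cardinal.mk_prod, Cardinal.lift_id, hcι, Cardinal.mul_eq_self h2]
  have : Nonempty (Ω → ℕ → {S : Set (Cnd ι Ω) // S.Countable}) :=
    ⟨fun _ _ => ⟨∅, Set.countable_empty⟩⟩
  refine ⟨fun i a n => (Function.invFun e (g i).1 a n).1, ?_⟩
  intro K hKc
  set K' : Ω → ℕ → {S : Set (Cnd ι Ω) // S.Countable} := fun a n => ⟨K a n, hKc a n⟩ with hK'
  -- the supports
  set T : Set ι := ⋃ a, ⋃ n, ⋃ d ∈ K a n, {j | d.s j ≠ ∅ ∨ d.F j ≠ ∅} with hT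
  have hTc : #T < succ ℵ₁ := by
    rw [lt_succ_iff]
    have e1 : ∀ a n, #(↥(⋃ d ∈ K a n, {j | d.s j ≠ ∅ ∨ d.F j ≠ ∅})) ≤ ℵ₁ := by
      intro a n
      have : (⋃ d ∈ K a n, {j | d.s j ≠ ∅ ∨ d.F j ≠ ∅}).Countable :=
        (hKc a n).biUnion fun d _ => d.fin.countable
      exact this.le_aleph0.trans h1
    have e2 : ∀ a, #(↥(⋃ n, ⋃ d ∈ K a n, {j | d.s j ≠ ∅ ∨ d.F j ≠ ∅})) ≤ ℵ₁ := by
      intro a
      refine (Cardinal.mk_iUnion_le _).trans ?_
      refine (mul_le_mul' (Cardinal.mk_le_aleph0.trans h1) (ciSup_le' (e1 a))).trans ?_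
      rw [Cardinal.mul_eq_self h1]
    rw [hT]
    refine (Cardinal.mk_iUnion_le _).trans ?_
    refine (mul_le_mul' hcΩ.le (ciSup_le' e2)).trans ?_
    rw [Cardinal.mul_eq_self h1]
  -- bounded
  have hbd : ∃ b : ι, ∀ j ∈ T, j < b := by
    by_contra hcon
    push Not at hcon
    have e0 : ∀ b : ι, #(Set.Iic b) ≤ ℵ₁ := by
      intro b
      have e1 : #(Set.Iio b) < succ ℵ₁ := Cardinal.mk_Iio_toType_ord_lt b
      rw [lt_succ_iff] at e1
      have e2 : Set.Iic b = insert b (Set.Iio b) := by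
        ext x
        simp [le_iff_lt_or_eq, or_comm]
      rw [e2]
      refine (Cardinal.mk_insert_le).trans ?_
      refine (add_le_add e1 le_rfl).trans ?_
      rw [Cardinal.add_one_eq h1]
    have e3 : #ι ≤ #(↥(⋃ b : T, Set.Iic (b : ι))) := by
      refine Cardinal.mk_le_of_injective (f := fun j : ι => (⟨j, by
        obtain ⟨b, hb1, hb2⟩ := hcon j
        exact Set.mem_iUnion.2 ⟨⟨b, hb1⟩, hb2⟩⟩ : ↥(⋃ b : T, Set.Iic (b : ι)))) ?_
      intro j j' h
      exact congrArg Subtype.val h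
    have e4 : #(↥(⋃ b : T, Set.Iic (b : ι))) ≤ ℵ₁ := by
      refine (Cardinal.mk_iUnion_le _).trans ?_
      refine (mul_le_mul' (lt_succ_iff.1 hTc) (ciSup_le' fun b : T => e0 (b : ι))).trans ?_
      rw [Cardinal.mul_eq_self h1]
    rw [hcι] at e3
    exact absurd (e3.trans e4) (not_le.2 (lt_succ _))
  obtain ⟨b, hb⟩ := hbd
  -- choose the index
  have hidx : ∃ i, (g i).1 = e K' ∧ b ≤ i := by
    by_contra hcon
    push Not at hcon
    have e1 : #ι ≤ #(Set.Iio b) := by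
      refine Cardinal.mk_le_of_injective
        (f := fun j : ι => (⟨g.symm (e K', j), hcon _ (by simp)⟩ : Set.Iio b)) ?_
      intro j j' h
      have h' := g.symm.injective (congrArg Subtype.val h)
      exact congrArg Prod.snd h'
    have e2 : #(Set.Iio b) < succ ℵ₁ := by
      exact Cardinal.mk_Iio_toType_ord_lt b
    rw [hcι] at e1
    exact absurd e2 (not_lt.2 e1)
  obtain ⟨i, hi1, hi2⟩ := hidx
  refine ⟨i, ?_, ?_⟩
  · funext a n
    change (Function.invFun e (g i).1 a n).1 = K a n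
    rw [hi1, Function.leftInverse_invFun e.injective K']
  · intro a n d hd j hj
    by_contra hcon
    have hjT : j ∈ T := by
      rw [hT]
      simp only [Set.mem_iUnion]
      refine ⟨a, n, d, hd, ?_⟩
      by_contra h
      apply hcon
      have h' : ¬ (d.s j ≠ ∅ ∨ d.F j ≠ ∅) := h
      push Not at h'
      exact h'
    exact absurd (hb j hjT) (not_lt.2 (hi2.trans hj))

end Pool.Agent.helper60.POS
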